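import Mathlib

/-!
# MP_b67aea_co: for every `k ≥ 4` the map `pre_k` is eventually non-injective

For every `k ≥ 4` there is `M` such that for every `n ≥ M` there are two different partitions of `n`
into exactly `2 k` parts with the same multiset of `k`-fold products.

The partitions are `{t b} ∪ {u γ / b'}` and `{t b'} ∪ {u γ / b}`, where `b, b'` are two different
`k`-multisets of divisors of `γ = 1260` with equal sum, equal product and equal sum of reciprocals
(for `k = 4`: `18, 28, 28, 45` and `20, 21, 36, 42`) and `gcd (∑ b) (γ ∑ 1/b) = 1`.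
-/

set_option autoImplicit false

namespace Pool.Agent.Results.MP_b67aea_co.FourAndMore

/-- The multiset of all products of `k` members of the multiset `s` (members at different places),
that is, of the summands of the elementary symmetric polynomial `e_k` evaluated at `s`. -/
def pre (k : ℕ) (s : Multiset ℕ) : Multiset ℕ := (s.powersetCard k).map Multiset.prod

theorem pre_fin {m : ℕ} (k : ℕ) (f : Fin m → ℕ) :
    pre k ((Finset.univ : Finset (Fin m)).val.map f) =
      (Finset.powersetCard k (Finset.univ : Finset (Fin m))).val.map (fun s => ∏ i ∈ s, f i) := by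
  unfold pre
  rw [Multiset.powersetCard_map, ← Finset.map_val_val_powersetCard, Multiset.map_map,
    Multiset.map_map]
  rfl

theorem pre_compl {k : ℕ} (f g : Fin (2 * k) → ℕ) (c : ℕ) (hc : 0 < c)
    (h : ∀ i, f i * g i = c) (hp : ∏ i, f i = c ^ k) :
    pre k ((Finset.univ : Finset (Fin (2 * k))).val.map f) =
      pre k ((Finset.univ : Finset (Fin (2 * k))).val.map g) := by
  rw [pre_fin, pre_fin]
  set S := Finset.powersetCard k (Finset.univ : Finset (Fin (2 * k))) with hS
  have hf : ∀ i, 0 < f i := fun i => Nat.pos_of_ne_zero (fun h0 => by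
    have := h i; rw [h0, zero_mul] at this; omega)
  have hcompl : S.map ⟨compl, compl_injective⟩ = S := by
    ext s
    simp only [Finset.mem_map, Function.Embedding.coeFn_mk, hS, Finset.mem_powersetCard_univ]
    constructor
    · rintro ⟨a, ha, rfl⟩
      rw [Finset.card_compl, Fintype.card_fin, ha]; omega
    · intro hs
      exact ⟨sᶜ, by rw [Finset.card_compl, Fintype.card_fin, hs]; omega, compl_compl s⟩
  have hval : S.val.map (fun s => sᶜ) = S.val := by
    have := congrArg Finset.val hcompl
    rw [Finset.map_val] at this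
    exact this
  have key : ∀ s ∈ S.val, ∏ i ∈ s, g i = ∏ i ∈ sᶜ, f i := by
    intro s hs
    have hs' : s.card = k := by
      have : s ∈ S := hs
      rw [hS, Finset.mem_powersetCard_univ] at this; exact this
    have h1 : (∏ i ∈ s, f i) * ∏ i ∈ s, g i = c ^ k := by
      rw [← Finset.prod_mul_distrib, Finset.prod_congr rfl (fun i _ => h i), Finset.prod_const, hs']
    have h2 : (∏ i ∈ s, f i) * ∏ i ∈ sᶜ, f i = c ^ k := by
      rw [Finset.prod_mul_prod_compl, hp]
    have h3 : 0 < ∏ i ∈ s, f i := Finset.prod_pos (fun i _ => hf i)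
    exact Nat.eq_of_mul_eq_mul_left h3 (h1.trans h2.symm)
  calc S.val.map (fun s => ∏ i ∈ s, f i)
      = (S.val.map (fun s => sᶜ)).map (fun s => ∏ i ∈ s, f i) := by rw [hval]
    _ = S.val.map (fun s => ∏ i ∈ sᶜ, f i) := by rw [Multiset.map_map]; rfl
    _ = S.val.map (fun s => ∏ i ∈ s, g i) := (Multiset.map_congr rfl (fun s hs => key s hs)).symm

theorem pre_list {k : ℕ} (l : List (ℕ × ℕ)) (hl : l.length = 2 * k) (c : ℕ) (hc : 0 < c)
    (h : ∀ p ∈ l, p.1 * p.2 = c) (hp : (l.map Prod.fst).prod = c ^ k) :
    pre k (l.map Prod.fst : List ℕ) = pre k (l.map Prod.snd : List ℕ) := by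
  have h1 : ∀ F : ℕ × ℕ → ℕ, ((l.map F : List ℕ) : Multiset ℕ) =
      (Finset.univ : Finset (Fin (2 * k))).val.map (fun i => F (l.get (i.cast hl.symm))) := by
    intro F
    rw [Fin.univ_val_map]
    congr 1
    apply List.ext_get
    · simp [hl]
    · intro i h1 h2
      simp
  rw [h1, h1]
  refine pre_compl _ _ c hc (fun i => h _ (List.get_mem _ _)) ?_
  rw [← hp]
  have := congrArg Multiset.prod (h1 Prod.fst)
  rw [Multiset.prod_coe] at this
  rw [this]
  rfl

/-- The base list of pairs. -/
def base (t u : ℕ) : List (ℕ × ℕ) :=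
  [(t * 18, u * 70), (t * 28, u * 45), (t * 28, u * 45), (t * 45, u * 28),
   (u * 63, t * 20), (u * 60, t * 21), (u * 35, t * 36), (u * 30, t * 42)]

/-- Each divisor `w` of `1260` contributes the two pairs `(t w, u w')`, `(u w', t w)`. -/
def extra (t u : ℕ) (ws : List (ℕ × ℕ)) : List (ℕ × ℕ) :=
  ws.flatMap (fun w => [(t * w.1, u * w.2), (u * w.2, t * w.1)])

theorem extra_length (t u : ℕ) (ws : List (ℕ × ℕ)) : (extra t u ws).length = 2 * ws.length := by
  induction ws with
  | nil => rfl
  | cons a l ih =>
    simp only [extra, List.flatMap_cons, List.length_append, List.length_cons, List.length_nil] at ih ⊢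
    omega

theorem extra_mul (t u : ℕ) (ws : List (ℕ × ℕ)) (h : ∀ p ∈ ws, p.1 * p.2 = 1260) :
    ∀ p ∈ extra t u ws, p.1 * p.2 = 1260 * (t * u) := by
  intro p hp
  simp only [extra, List.mem_flatMap, List.mem_cons, List.not_mem_nil, or_false] at hp
  obtain ⟨w, hw, rfl | rfl⟩ := hp
  · simp only; rw [← h w hw]; ring
  · simp only; rw [← h w hw]; ring

theorem extra_prod (t u : ℕ) (ws : List (ℕ × ℕ)) (h : ∀ p ∈ ws, p.1 * p.2 = 1260) :
    ((extra t u ws).map Prod.fst).prod = (1260 * (t * u)) ^ ws.length := by
  induction ws with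
  | nil => rfl
  | cons a l ih =>
    have ih' := ih (fun p hp => h p (List.mem_cons_of_mem _ hp))
    have ha := h a List.mem_cons_self
    simp only [extra, List.flatMap_cons, List.map_append, List.prod_append, List.map_cons,
      List.map_nil, List.prod_cons, List.prod_nil, List.length_cons, mul_one] at ih' ⊢
    rw [ih', pow_succ, ← ha]; ring

theorem extra_sum (t u : ℕ) (ws : List (ℕ × ℕ)) :
    ((extra t u ws).map Prod.fst).sum = t * (ws.map Prod.fst).sum + u * (ws.map Prod.snd).sum ∧
    ((extra t u ws).map Prod.snd).sum = t * (ws.map Prod.fst).sum + u * (ws.map Prod.snd).sum := by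
  induction ws with
  | nil => simp [extra]
  | cons a l ih =>
    simp only [extra, List.flatMap_cons, List.map_append, List.sum_append, List.map_cons,
      List.map_nil, List.sum_cons, List.sum_nil, add_zero] at ih ⊢
    rw [ih.1, ih.2]
    constructor <;> ring

theorem extra_sq (t u : ℕ) (ws : List (ℕ × ℕ)) :
    (((extra t u ws).map Prod.fst).map (fun x => x ^ 2)).sum =
      (((extra t u ws).map Prod.snd).map (fun x => x ^ 2)).sum := by
  induction ws with
  | nil => simp [extra]
  | cons a l ih =>
    simp only [extra, List.flatMap_cons, List.map_append, List.sum_append, List.map_cons,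
      List.map_nil, List.sum_cons, List.sum_nil, add_zero] at ih ⊢
    rw [ih]; ring

theorem no_ratio (t u : ℕ) (ht : 0 < t) (hu : 0 < u) : 2 * t ^ 2 ≠ 5 * u ^ 2 := by
  intro h
  have h1 := congrArg (padicValNat 2) h
  rw [padicValNat.mul (by norm_num) (by positivity), padicValNat.mul (by norm_num) (by positivity),
    padicValNat.pow, padicValNat.pow] at h1
  have h2 : padicValNat 2 2 = 1 := padicValNat_self
  have h3 : padicValNat 2 5 = 0 := by
    apply padicValNat.eq_zero_of_not_dvd; norm_num
  rw [h2, h3] at h1
  omega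

theorem exists_weights (r : ℕ) : ∃ ws : List (ℕ × ℕ), ws.length = r ∧
    (∀ p ∈ ws, p.1 * p.2 = 1260) ∧
    Nat.Coprime (119 + (ws.map Prod.fst).sum) (188 + (ws.map Prod.snd).sum) := by
  rcases Nat.even_or_odd' r with ⟨m, rfl | rfl⟩
  · rcases Nat.eq_zero_or_pos m with rfl | hm
    · exact ⟨[], rfl, by simp, by decide⟩
    · obtain ⟨m, rfl⟩ : ∃ j, m = j + 1 := ⟨m - 1, by omega⟩
      refine ⟨[(84, 15), (35, 36)] ++ List.replicate m (35, 36) ++ List.replicate m (36, 35),
        by simp; omega, ?_, ?_⟩
      · intro p hp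
        simp only [List.mem_append, List.mem_cons, List.not_mem_nil, or_false,
          List.mem_replicate] at hp
        rcases hp with ((rfl | rfl) | ⟨-, rfl⟩) | ⟨-, rfl⟩ <;> norm_num
      · simp only [List.map_append, List.map_cons, List.map_nil, List.sum_append, List.sum_cons,
          List.sum_nil, List.map_replicate, List.sum_replicate, smul_eq_mul]
        have h1 : 188 + (15 + (36 + 0) + m * 36 + m * 35) =
            (119 + (84 + (35 + 0) + m * 35 + m * 36)) + 1 := by ring
        rw [h1]
        exact (Nat.coprime_self_add_right).2 (Nat.coprime_one_right _)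
  · rcases Nat.eq_zero_or_pos m with rfl | hm
    · exact ⟨[(2, 630)], rfl, by simp, by norm_num⟩
    · obtain ⟨m, rfl⟩ : ∃ j, m = j + 1 := ⟨m - 1, by omega⟩
      refine ⟨[(70, 18), (45, 28), (35, 36)] ++ List.replicate m (35, 36) ++
        List.replicate m (36, 35), by simp; omega, ?_, ?_⟩
      · intro p hp
        simp only [List.mem_append, List.mem_cons, List.not_mem_nil, or_false,
          List.mem_replicate] at hp
        rcases hp with ((rfl | rfl | rfl) | ⟨-, rfl⟩) | ⟨-, rfl⟩ <;> norm_num
      · simp only [List.map_append, List.map_cons, List.map_nil, List.sum_append, List.sum_cons,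
          List.sum_nil, List.map_replicate, List.sum_replicate, smul_eq_mul]
        have h1 : 188 + (18 + (28 + (36 + 0)) + m * 36 + m * 35) =
            (119 + (70 + (45 + (35 + 0)) + m * 35 + m * 36)) + 1 := by ring
        rw [h1]
        exact (Nat.coprime_self_add_right).2 (Nat.coprime_one_right _)

theorem represent (A B n : ℕ) (hA : 0 < A) (hB : 0 < B) (h : Nat.Coprime A B) (hn : A * B < n) :
    ∃ t u : ℕ, 0 < t ∧ 0 < u ∧ n = t * A + u * B := by
  obtain ⟨x, hx1, hx2⟩ := Nat.chineseRemainder h n 0
  -- choose a positive representative at most A * B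
  obtain ⟨y, hy0, hy1, hyA, hyB⟩ : ∃ y, 0 < y ∧ y ≤ A * B ∧ y ≡ n [MOD A] ∧ B ∣ y := by
    refine ⟨if x % (A * B) = 0 then A * B else x % (A * B), ?_, ?_, ?_, ?_⟩
    · split_ifs with h0
      · positivity
      · omega
    · split_ifs with h0
      · exact le_rfl
      · exact (Nat.mod_lt _ (by positivity)).le
    · have h1 : x % (A * B) ≡ n [MOD A] := by
        have : x % (A * B) ≡ x [MOD A] := (Nat.mod_modEq x (A * B)).of_mul_right B
        exact this.trans hx1
      split_ifs with h0
      · rw [h0] at h1
        exact (Nat.modEq_zero_iff_dvd.2 (Dvd.intro _ rfl)).trans h1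
      · exact h1
    · have h1 : B ∣ x % (A * B) := by
        have : B ∣ x := (Nat.modEq_zero_iff_dvd.1 hx2)
        exact (Nat.dvd_mod_iff (Dvd.intro_left _ rfl)).2 this
      split_ifs with h0
      · exact Dvd.intro_left _ rfl
      · exact h1
  obtain ⟨u, rfl⟩ := hyB
  have hlt : B * u < n := lt_of_le_of_lt hy1 hn
  obtain ⟨t, ht⟩ := (Nat.modEq_iff_dvd' hlt.le).1 hyA
  refine ⟨t, u, ?_, ?_, ?_⟩
  · rcases Nat.eq_zero_or_pos t with rfl | h
    · omega
    · exact h
  · rcases Nat.eq_zero_or_pos u with rfl | h
    · omega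
    · exact h
  · have : n = (n - B * u) + B * u := by omega
    rw [this, ht]; ring

/-- For every `k ≥ 4` and all sufficiently large `n` there are two different partitions of `n` with
exactly `2 k > k` parts and with the same image under `pre_k`. -/
theorem result : ∀ k : ℕ, 4 ≤ k → ∃ M : ℕ, ∀ n : ℕ, M ≤ n →
    ∃ p q : Nat.Partition n, p ≠ q ∧ p.parts.card = 2 * k ∧ q.parts.card = 2 * k ∧
      pre k p.parts = pre k q.parts := by
  intro k hk
  obtain ⟨ws, hlen, hws, hcop⟩ := exists_weights (k - 4)
  set A := 119 + (ws.map Prod.fst).sum with hA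
  set B := 188 + (ws.map Prod.snd).sum with hB
  refine ⟨A * B + 1, fun n hn => ?_⟩
  obtain ⟨t, u, ht, hu, hn'⟩ := represent A B n (by omega) (by omega) hcop (by omega)
  set l := base t u ++ extra t u ws with hl
  have hlen' : l.length = 2 * k := by
    rw [hl, List.length_append, extra_length, hlen]; simp [base]; omega
  have hmul : ∀ p ∈ l, p.1 * p.2 = 1260 * (t * u) := by
    intro p hp
    rw [hl, List.mem_append] at hp
    rcases hp with hp | hp
    · simp only [base, List.mem_cons, List.not_mem_nil, or_false] at hp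
      rcases hp with rfl | rfl | rfl | rfl | rfl | rfl | rfl | rfl <;> simp only <;> ring
    · exact extra_mul t u ws hws p hp
  have hc : 0 < 1260 * (t * u) := by positivity
  have hprod : (l.map Prod.fst).prod = (1260 * (t * u)) ^ k := by
    rw [hl, List.map_append, List.prod_append, extra_prod t u ws hws, hlen]
    have h4 : ((base t u).map Prod.fst).prod = (1260 * (t * u)) ^ 4 := by
      simp only [base, List.map_cons, List.map_nil, List.prod_cons, List.prod_nil]; ring
    rw [h4, ← pow_add]; congr 1; omega
  have hpos1 : ∀ x ∈ l.map Prod.fst, 0 < x := by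
    intro x hx
    obtain ⟨p, hp, rfl⟩ := List.mem_map.1 hx
    exact Nat.pos_of_ne_zero (fun h0 => by have := hmul p hp; rw [h0, zero_mul] at this; omega)
  have hpos2 : ∀ x ∈ l.map Prod.snd, 0 < x := by
    intro x hx
    obtain ⟨p, hp, rfl⟩ := List.mem_map.1 hx
    exact Nat.pos_of_ne_zero (fun h0 => by have := hmul p hp; rw [h0, mul_zero] at this; omega)
  have hs1 : (l.map Prod.fst).sum = n := by
    rw [hl, List.map_append, List.sum_append, (extra_sum t u ws).1, hn', hA, hB]
    simp only [base, List.map_cons, List.map_nil, List.sum_cons, List.sum_nil]; ring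
  have hs2 : (l.map Prod.snd).sum = n := by
    rw [hl, List.map_append, List.sum_append, (extra_sum t u ws).2, hn', hA, hB]
    simp only [base, List.map_cons, List.map_nil, List.sum_cons, List.sum_nil]; ring
  refine ⟨⟨(l.map Prod.fst : List ℕ), fun {x} hx => hpos1 x hx, by rw [Multiset.sum_coe]; exact hs1⟩,
    ⟨(l.map Prod.snd : List ℕ), fun {x} hx => hpos2 x hx, by rw [Multiset.sum_coe]; exact hs2⟩,
    ?_, ?_, ?_, ?_⟩
  · intro h
    have h1 := congrArg Nat.Partition.parts h
    simp only at h1
    have h2 := congrArg (fun s : Multiset ℕ => (s.map (fun x => x ^ 2)).sum) h1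
    simp only [Multiset.map_coe, Multiset.sum_coe] at h2
    rw [hl, List.map_append, List.map_append, List.map_append, List.map_append,
      List.sum_append, List.sum_append, extra_sq] at h2
    have h3 := Nat.add_right_cancel h2
    simp only [base, List.map_cons, List.map_nil, List.sum_cons, List.sum_nil] at h3
    apply no_ratio t u ht hu
    nlinarith [h3]
  · simp [hlen']
  · simp [hlen']
  · exact pre_list l hlen' _ hc hmul hprod

end Pool.Agent.Results.MP_b67aea_co.FourAndMore
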